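import Mathlib

namespace Pool.Agent.Results.MP_a0e11f_co.DegenerateTwo

open Finset

/-- A signed permutation `π` of `{±1, ..., ±n}`, given by the permutation `σ` of absolute values and
the set of positions `i` with a negative value. -/
structure SP (n : ℕ) where
  σ : Equiv.Perm (Fin n)
  neg : Fin n → Bool
deriving DecidableEq, Fintype

/-- The value `π_i`, for the position `i = 1, ..., n` (the element `i - 1` of `Fin n`). -/
def SP.val {n : ℕ} (π : SP n) (i : Fin n) : ℤ :=
  if π.neg i then -((π.σ i : ℕ) + 1 : ℤ) else ((π.σ i : ℕ) + 1 : ℤ)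

/-- The inverse signed permutation. -/
def SP.inv {n : ℕ} (π : SP n) : SP n := ⟨π.σ⁻¹, fun j => π.neg (π.σ⁻¹ j)⟩

/-- Type D length. -/
def SP.len {n : ℕ} (π : SP n) : ℕ :=
  (univ.filter fun p : Fin n × Fin n => p.1 < p.2 ∧ π.val p.1 > π.val p.2).card +
    (univ.filter fun p : Fin n × Fin n => p.1 < p.2 ∧ π.val p.1 + π.val p.2 < 0).card

/-- Type D descents, with `π_0 = - π_2`: the descents at the positions `1, ..., n - 1`, and the
descent at `0`, that is, `- π_2 > π_1`. -/
def SP.des {n : ℕ} (π : SP n) : ℕ :=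
  (univ.filter fun p : Fin n × Fin n => (p.1 : ℕ) + 1 = p.2 ∧ π.val p.1 > π.val p.2).card +
    (univ.filter fun p : Fin n × Fin n => (p.1 : ℕ) = 0 ∧ (p.2 : ℕ) = 1 ∧
      - π.val p.2 > π.val p.1).card

/-- The signed permutations in `D_n`: an even number of negative values. -/
def typeD (n : ℕ) : Finset (SP n) :=
  univ.filter fun π => Even (univ.filter fun i => π.neg i = true).card

/-- `TSD_n^+` (for `b = true`) and `TSD_n^-` (for `b = false`) as functions on the reals. -/
noncomputable def TSD (n : ℕ) (b : Bool) (s t : ℝ) : ℝ :=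
  ∑ π ∈ (typeD n).filter (fun π => decide (Even π.len) = b), t ^ π.des * s ^ π.inv.des

/-- The polynomial function `f` has a two-sided gamma expansion of degree `n` with non-negative
coefficients. -/
def HasGamma (n : ℕ) (f : ℝ → ℝ → ℝ) : Prop :=
  ∃ γ : ℕ → ℕ → ℝ, (∀ i j, 0 ≤ γ i j) ∧
    ∀ s t : ℝ, f s t = ∑ p ∈ (range (n + 1) ×ˢ range (n + 1)).filter (fun p => 2 * p.1 + p.2 ≤ n),
      γ p.1 p.2 * (s * t) ^ p.1 * (s + t) ^ p.2 * (1 + s * t) ^ (n - 2 * p.1 - p.2)

lemma perm_two (σ : Equiv.Perm (Fin 2)) : σ = 1 ∨ σ = Equiv.swap 0 1 := by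
  revert σ
  decide

lemma bool_two (ε : Fin 2 → Bool) : ε = ![ε 0, ε 1] := by
  ext i
  fin_cases i <;> rfl

lemma filter_two : (typeD 2).filter (fun π => decide (Even π.len) = true) =
    {⟨1, ![false, false]⟩, ⟨1, ![true, true]⟩} := by
  ext π
  obtain ⟨σ, ε⟩ := π
  rw [bool_two ε]
  simp only [typeD, Finset.mem_filter, Finset.mem_univ, true_and, Finset.mem_insert,
    Finset.mem_singleton]
  rcases perm_two σ with h | h <;> subst h <;> rcases ε 0 <;> rcases ε 1 <;> decide

lemma TSD_two (s t : ℝ) : TSD 2 true s t = 1 + t ^ 2 * s ^ 2 := by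
  unfold TSD
  rw [filter_two, Finset.sum_pair (by decide)]
  have h1 : (⟨1, ![false, false]⟩ : SP 2).des = 0 := by decide
  have h2 : (⟨1, ![false, false]⟩ : SP 2).inv.des = 0 := by decide
  have h3 : (⟨1, ![true, true]⟩ : SP 2).des = 2 := by decide
  have h4 : (⟨1, ![true, true]⟩ : SP 2).inv.des = 2 := by decide
  rw [h1, h2, h3, h4]
  ring

/-- The assertion of Q1 fails for `n = 2`: `TSD_2^+ = 1 + s^2 t^2` has no two-sided gamma expansion
of degree `2` with non-negative coefficients. -/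
theorem result : (∀ s t : ℝ, TSD 2 true s t = 1 + s ^ 2 * t ^ 2) ∧ ¬ HasGamma 2 (TSD 2 true) := by
  refine ⟨fun s t => by rw [TSD_two]; ring, ?_⟩
  rintro ⟨γ, hγ, he⟩
  have hs : (range (2 + 1) ×ˢ range (2 + 1)).filter (fun p : ℕ × ℕ => 2 * p.1 + p.2 ≤ 2) =
      {(0, 0), (0, 1), (0, 2), (1, 0)} := by decide
  have e : ∀ s t : ℝ, 1 + t ^ 2 * s ^ 2 = γ 0 0 * (1 + s * t) ^ 2 + γ 0 1 * (s + t) * (1 + s * t) +
      γ 0 2 * (s + t) ^ 2 + γ 1 0 * (s * t) := by
    intro s t
    have := he s t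
    rw [TSD_two, hs] at this
    rw [Finset.sum_insert (by decide), Finset.sum_insert (by decide), Finset.sum_insert (by decide),
      Finset.sum_singleton] at this
    rw [this]
    ring
  have e1 := e 0 0
  have e2 := e 1 1
  have e3 := e 1 (-1)
  norm_num at e1 e2 e3
  have g1 := hγ 0 1
  have g2 := hγ 0 2
  have g3 := hγ 1 0
  linarith

end Pool.Agent.Results.MP_a0e11f_co.DegenerateTwo
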